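import Pool.Agent.Helper8.PH5.Upper

/-!
# The inscribed pentagon of maximal area (MP_8bf717_co, frame for upper bounds)

`Max5 K a b c d e`: the closed pentagon `a b c d e` has maximal (signed) area among all closed
pentagons with vertices in `K`, and larger area than every closed quadrilateral. Then it is
strictly convex (`Max5.ear`, `Max5.long`). A convex body either is the hull of four points or has
such a pentagon.
-/

set_option autoImplicit false

namespace Pool.Agent.Helper95.PH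

open Pool.Agent.Helper37.PH Pool.Agent.Helper61.PH Pool.Agent.Helper27.PHU MeasureTheory Set

/-- twice the signed area of the closed quadrilateral -/
def S4 (a b c d : ℝ × ℝ) : ℝ := cr a b + cr b c + cr c d + cr d a

/-- twice the signed area of the closed pentagon -/
def S5 (a b c d e : ℝ × ℝ) : ℝ := cr a b + cr b c + cr c d + cr d e + cr e a

/-- twice the signed area of the triangle -/
def T3 (a b c : ℝ × ℝ) : ℝ := cr (b - a) (c - a)

theorem T3_eq (a b c : ℝ × ℝ) : T3 a b c = cr a b + cr b c + cr c a := by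
  simp only [T3, cr, Prod.fst_sub, Prod.snd_sub]
  ring

theorem exists_max4 {K : Set (ℝ × ℝ)} (hK : IsBody K) :
    ∃ a ∈ K, ∃ b ∈ K, ∃ c ∈ K, ∃ d ∈ K,
      ∀ a' ∈ K, ∀ b' ∈ K, ∀ c' ∈ K, ∀ d' ∈ K, S4 a' b' c' d' ≤ S4 a b c d := by
  have hne : K.Nonempty := hK.interior_nonempty.mono interior_subset
  have hcpt : IsCompact (K ×ˢ (K ×ˢ (K ×ˢ K))) :=
    hK.compact.prod (hK.compact.prod (hK.compact.prod hK.compact))
  have hcont : Continuous fun z : (ℝ × ℝ) × ((ℝ × ℝ) × ((ℝ × ℝ) × (ℝ × ℝ))) =>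
      S4 z.1 z.2.1 z.2.2.1 z.2.2.2 := by
    unfold S4 cr
    fun_prop
  obtain ⟨⟨a, b, c, d⟩, hz, hmax⟩ := hcpt.exists_isMaxOn
    (hne.prod (hne.prod (hne.prod hne))) hcont.continuousOn
  obtain ⟨ha, hb, hc, hd⟩ := hz
  refine ⟨a, ha, b, hb, c, hc, d, hd, ?_⟩
  intro a' ha' b' hb' c' hc' d' hd'
  exact hmax (show ((a', b', c', d') : (ℝ × ℝ) × ((ℝ × ℝ) × ((ℝ × ℝ) × (ℝ × ℝ)))) ∈
    K ×ˢ (K ×ˢ (K ×ˢ K)) from ⟨ha', hb', hc', hd'⟩)

theorem exists_max5 {K : Set (ℝ × ℝ)} (hK : IsBody K) :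
    ∃ a ∈ K, ∃ b ∈ K, ∃ c ∈ K, ∃ d ∈ K, ∃ e ∈ K,
      ∀ a' ∈ K, ∀ b' ∈ K, ∀ c' ∈ K, ∀ d' ∈ K, ∀ e' ∈ K,
        S5 a' b' c' d' e' ≤ S5 a b c d e := by
  have hne : K.Nonempty := hK.interior_nonempty.mono interior_subset
  have hcpt : IsCompact (K ×ˢ (K ×ˢ (K ×ˢ (K ×ˢ K)))) :=
    hK.compact.prod (hK.compact.prod (hK.compact.prod (hK.compact.prod hK.compact)))
  have hcont : Continuous fun z : (ℝ × ℝ) × ((ℝ × ℝ) × ((ℝ × ℝ) × ((ℝ × ℝ) × (ℝ × ℝ)))) =>
      S5 z.1 z.2.1 z.2.2.1 z.2.2.2.1 z.2.2.2.2 := by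
    unfold S5 cr
    fun_prop
  obtain ⟨⟨a, b, c, d, e⟩, hz, hmax⟩ := hcpt.exists_isMaxOn
    (hne.prod (hne.prod (hne.prod (hne.prod hne)))) hcont.continuousOn
  obtain ⟨ha, hb, hc, hd, he⟩ := hz
  refine ⟨a, ha, b, hb, c, hc, d, hd, e, he, ?_⟩
  intro a' ha' b' hb' c' hc' d' hd' e' he'
  exact hmax (show ((a', b', c', d', e') :
    (ℝ × ℝ) × ((ℝ × ℝ) × ((ℝ × ℝ) × ((ℝ × ℝ) × (ℝ × ℝ))))) ∈
    K ×ˢ (K ×ˢ (K ×ˢ (K ×ˢ K))) from ⟨ha', hb', hc', hd', he'⟩)

/-- a closed quadrilateral with positive area all of whose sides have `K` on the left -/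
theorem sub_hull4 {K : Set (ℝ × ℝ)} {a b c d : ℝ × ℝ} (hS : 0 < S4 a b c d)
    (h1 : ∀ w ∈ K, 0 ≤ T3 w a b) (h2 : ∀ w ∈ K, 0 ≤ T3 w b c) (h3 : ∀ w ∈ K, 0 ≤ T3 w c d)
    (h4 : ∀ w ∈ K, 0 ≤ T3 w d a) : K ⊆ convexHull ℝ {a, b, c, d} := by
  intro w hw
  by_contra hn
  have hcl : IsClosed (convexHull ℝ ({a, b, c, d} : Set (ℝ × ℝ))) :=
    (Set.Finite.isCompact_convexHull ℝ (Set.toFinite _)).isClosed
  obtain ⟨f, u, hf, hu⟩ := geometric_hahn_banach_closed_point (convex_convexHull ℝ _) hcl hn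
  have hsub := subset_convexHull ℝ ({a, b, c, d} : Set (ℝ × ℝ))
  have fe : ∀ z : ℝ × ℝ, f z = f (1, 0) * z.1 + f (0, 1) * z.2 := by
    intro z
    have e : z = z.1 • ((1 : ℝ), (0 : ℝ)) + z.2 • ((0 : ℝ), (1 : ℝ)) := by
      ext <;> simp
    conv_lhs => rw [e]
    rw [map_add, map_smul, map_smul, smul_eq_mul, smul_eq_mul]
    ring
  set α := f (1, 0) with hα
  set β := f (0, 1) with hβ
  have ka := (hf a (hsub (by simp))).trans hu
  have kb := (hf b (hsub (by simp))).trans hu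
  have kc := (hf c (hsub (by simp))).trans hu
  have kd := (hf d (hsub (by simp))).trans hu
  rw [fe a, fe w] at ka
  rw [fe b, fe w] at kb
  rw [fe c, fe w] at kc
  rw [fe d, fe w] at kd
  have q1 := h1 w hw
  have q2 := h2 w hw
  have q3 := h3 w hw
  have q4 := h4 w hw
  have hsum : T3 w a b + T3 w b c + T3 w c d + T3 w d a = S4 a b c d := by
    simp only [T3, S4, cr, Prod.fst_sub, Prod.snd_sub]
    ring
  -- the slopes
  have key : ∀ p q : ℝ × ℝ, (α * w.1 + β * w.2 - (α * p.1 + β * p.2)) *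
      (β * (q.1 - w.1) - α * (q.2 - w.2)) - (α * w.1 + β * w.2 - (α * q.1 + β * q.2)) *
      (β * (p.1 - w.1) - α * (p.2 - w.2)) = (α ^ 2 + β ^ 2) * T3 w p q := by
    intro p q
    simp only [T3, cr, Prod.fst_sub, Prod.snd_sub]
    ring
  set sa := α * w.1 + β * w.2 - (α * a.1 + β * a.2) with hsa
  set sb := α * w.1 + β * w.2 - (α * b.1 + β * b.2) with hsb
  set sc := α * w.1 + β * w.2 - (α * c.1 + β * c.2) with hsc
  set sd := α * w.1 + β * w.2 - (α * d.1 + β * d.2) with hsd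
  have pa : 0 < sa := by rw [hsa]; linarith
  have pb : 0 < sb := by rw [hsb]; linarith
  have pc : 0 < sc := by rw [hsc]; linarith
  have pd : 0 < sd := by rw [hsd]; linarith
  have e1 := key a b
  have e2 := key b c
  have e3 := key c d
  have e4 := key d a
  rw [← hsa, ← hsb] at e1
  rw [← hsb, ← hsc] at e2
  rw [← hsc, ← hsd] at e3
  rw [← hsd, ← hsa] at e4
  set ga := β * (a.1 - w.1) - α * (a.2 - w.2)
  set gb := β * (b.1 - w.1) - α * (b.2 - w.2)
  set gc := β * (c.1 - w.1) - α * (c.2 - w.2)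
  set gd := β * (d.1 - w.1) - α * (d.2 - w.2)
  have hab : 0 < α ^ 2 + β ^ 2 := by
    by_contra hcon
    have h0 : α ^ 2 + β ^ 2 ≤ 0 := not_lt.1 hcon
    have ha0 : α = 0 := by nlinarith [sq_nonneg α, sq_nonneg β]
    have hb0 : β = 0 := by nlinarith [sq_nonneg α, sq_nonneg β]
    rw [ha0, hb0] at hsa
    linarith
  -- slopes `g / s` increase cyclically, so they are equal
  have f1 : ga / sa ≤ gb / sb := by
    rw [div_le_div_iff₀ pa pb]
    nlinarith [mul_nonneg hab.le q1]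
  have f2 : gb / sb ≤ gc / sc := by
    rw [div_le_div_iff₀ pb pc]
    nlinarith [mul_nonneg hab.le q2]
  have f3 : gc / sc ≤ gd / sd := by
    rw [div_le_div_iff₀ pc pd]
    nlinarith [mul_nonneg hab.le q3]
  have f4 : gd / sd ≤ ga / sa := by
    rw [div_le_div_iff₀ pd pa]
    nlinarith [mul_nonneg hab.le q4]
  have g1 : ga / sa = gb / sb := le_antisymm f1 (by linarith)
  have g2 : gb / sb = gc / sc := le_antisymm f2 (by linarith)
  have g3 : gc / sc = gd / sd := le_antisymm f3 (by linarith)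
  have g4 : gd / sd = ga / sa := le_antisymm f4 (by linarith)
  rw [div_eq_div_iff pa.ne' pb.ne'] at g1
  rw [div_eq_div_iff pb.ne' pc.ne'] at g2
  rw [div_eq_div_iff pc.ne' pd.ne'] at g3
  rw [div_eq_div_iff pd.ne' pa.ne'] at g4
  have z1 : (α ^ 2 + β ^ 2) * S4 a b c d = 0 := by
    rw [← hsum]
    linarith
  have := mul_pos hab hS
  linarith

theorem exists_pos_T3 {K : Set (ℝ × ℝ)} (hK : IsBody K) :
    ∃ a ∈ K, ∃ b ∈ K, ∃ c ∈ K, 0 < T3 a b c := by
  obtain ⟨a, ha, b, hb, c, hc, hne, -⟩ := exists_max_triangle hK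
  rcases lt_or_gt_of_ne hne with h | h
  · refine ⟨a, ha, c, hc, b, hb, ?_⟩
    have : T3 a c b = -cr (b - a) (c - a) := by
      simp only [T3, cr, Prod.fst_sub, Prod.snd_sub]
      ring
    rw [this]
    linarith
  · exact ⟨a, ha, b, hb, c, hc, h⟩

/-- A closed pentagon in `K` of maximal area, larger than the area of every closed
quadrilateral. -/
structure Max5 (K : Set (ℝ × ℝ)) (a b c d e : ℝ × ℝ) : Prop where
  ma : a ∈ K
  mb : b ∈ K
  mc : c ∈ K
  md : d ∈ K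
  me : e ∈ K
  maxi : ∀ a' ∈ K, ∀ b' ∈ K, ∀ c' ∈ K, ∀ d' ∈ K, ∀ e' ∈ K, S5 a' b' c' d' e' ≤ S5 a b c d e
  quad : ∀ a' ∈ K, ∀ b' ∈ K, ∀ c' ∈ K, ∀ d' ∈ K, S4 a' b' c' d' < S5 a b c d e

theorem dichotomy {K : Set (ℝ × ℝ)} (hK : IsBody K) :
    (∃ a b c d : ℝ × ℝ, K = convexHull ℝ {a, b, c, d}) ∨
      ∃ a b c d e : ℝ × ℝ, Max5 K a b c d e := by
  obtain ⟨a, ha, b, hb, c, hc, d, hd, hm4⟩ := exists_max4 hK
  obtain ⟨p, hp, q, hq, r, hr, s, hs, t, ht, hm5⟩ := exists_max5 hK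
  by_cases hlt : S4 a b c d < S5 p q r s t
  · right
    exact ⟨p, q, r, s, t, hp, hq, hr, hs, ht, hm5,
      fun a' ha' b' hb' c' hc' d' hd' => (hm4 a' ha' b' hb' c' hc' d' hd').trans_lt hlt⟩
  · left
    rw [not_lt] at hlt
    have hS : 0 < S4 a b c d := by
      obtain ⟨x, hx, y, hy, z, hz, hpos⟩ := exists_pos_T3 hK
      have h1 := hm4 x hx y hy z hz z hz
      have h2 : S4 x y z z = T3 x y z := by
        simp only [S4, T3, cr, Prod.fst_sub, Prod.snd_sub]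
        ring
      linarith
    have h5 : ∀ w ∈ K, S5 a w b c d ≤ S4 a b c d ∧ S5 a b w c d ≤ S4 a b c d ∧
        S5 a b c w d ≤ S4 a b c d ∧ S5 a b c d w ≤ S4 a b c d := fun w hw =>
      ⟨(hm5 a ha w hw b hb c hc d hd).trans hlt, (hm5 a ha b hb w hw c hc d hd).trans hlt,
        (hm5 a ha b hb c hc w hw d hd).trans hlt, (hm5 a ha b hb c hc d hd w hw).trans hlt⟩
    refine ⟨a, b, c, d, Subset.antisymm (sub_hull4 hS ?_ ?_ ?_ ?_) ?_⟩
    · intro w hw
      have := (h5 w hw).1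
      simp only [S5, S4, T3, cr, Prod.fst_sub, Prod.snd_sub] at this ⊢
      nlinarith
    · intro w hw
      have := (h5 w hw).2.1
      simp only [S5, S4, T3, cr, Prod.fst_sub, Prod.snd_sub] at this ⊢
      nlinarith
    · intro w hw
      have := (h5 w hw).2.2.1
      simp only [S5, S4, T3, cr, Prod.fst_sub, Prod.snd_sub] at this ⊢
      nlinarith
    · intro w hw
      have := (h5 w hw).2.2.2
      simp only [S5, S4, T3, cr, Prod.fst_sub, Prod.snd_sub] at this ⊢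
      nlinarith
    · apply convexHull_min _ hK.convex
      intro z hz
      simp only [mem_insert_iff, mem_singleton_iff] at hz
      rcases hz with rfl | rfl | rfl | rfl
      · exact ha
      · exact hb
      · exact hc
      · exact hd

section Max5

variable {K : Set (ℝ × ℝ)} {a b c d e : ℝ × ℝ}

theorem S5_rot (a b c d e : ℝ × ℝ) : S5 b c d e a = S5 a b c d e := by
  unfold S5
  ring

theorem Max5.rot (h : Max5 K a b c d e) : Max5 K b c d e a where
  ma := h.mb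
  mb := h.mc
  mc := h.md
  md := h.me
  me := h.ma
  maxi := by
    intro a' ha' b' hb' c' hc' d' hd' e' he'
    rw [S5_rot a b c d e]
    exact h.maxi a' ha' b' hb' c' hc' d' hd' e' he'
  quad := by
    intro a' ha' b' hb' c' hc' d' hd'
    rw [S5_rot a b c d e]
    exact h.quad a' ha' b' hb' c' hc' d' hd'

theorem Max5.tri (h : Max5 K a b c d e) {x y z : ℝ × ℝ} (hx : x ∈ K) (hy : y ∈ K)
    (hz : z ∈ K) : T3 x y z < S5 a b c d e := by
  have := h.quad x hx y hy z hz z hz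
  have h2 : S4 x y z z = T3 x y z := by
    simp only [S4, T3, cr, Prod.fst_sub, Prod.snd_sub]
    ring
  rwa [h2] at this

theorem Max5.ear (h : Max5 K a b c d e) : 0 < T3 e a b := by
  have := h.quad b h.mb c h.mc d h.md e h.me
  have h2 : S5 a b c d e = S4 b c d e + T3 e a b := by
    simp only [S4, S5, T3, cr, Prod.fst_sub, Prod.snd_sub]
    ring
  linarith

theorem core {a0 a1 a2 a3 a4 S : ℝ} (h2 : 0 < a2) (h3 : 0 < a3)
    (k0 : a0 < S) (k1 : a1 < S) (k4 : a4 < S)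
    (hq : S ^ 2 - (a0 + a1 + a2 + a3 + a4) * S +
      (a0 * a1 + a1 * a2 + a2 * a3 + a3 * a4 + a4 * a0) = 0)
    (hx : S ≤ a1 + a4) : S < a3 + a1 ∧ S < a4 + a2 := by
  have id1 : (a1 + a4 - S) * (S - a0) + a2 * (S - a1) + a3 * (S - a4) - a2 * a3 = 0 := by
    linarith
  have p1 : 0 ≤ (a1 + a4 - S) * (S - a0) := mul_nonneg (by linarith) (by linarith)
  constructor
  · by_contra hc
    rw [not_lt] at hc
    have p2 : a2 * a3 ≤ a2 * (S - a1) := mul_le_mul_of_nonneg_left (by linarith) h2.le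
    have p3 : 0 < a3 * (S - a4) := mul_pos h3 (by linarith)
    linarith
  · by_contra hc
    rw [not_lt] at hc
    have p2 : a3 * a2 ≤ a3 * (S - a4) := mul_le_mul_of_nonneg_left (by linarith) h3.le
    have p3 : 0 < a2 * (S - a1) := mul_pos h2 (by linarith)
    linarith

theorem core2 {a0 a1 a2 a3 a4 S : ℝ} (h0 : 0 < a0) (h1 : 0 < a1) (h2 : 0 < a2) (h3 : 0 < a3)
    (h4 : 0 < a4) (k0 : a0 < S) (k1 : a1 < S) (k2 : a2 < S) (k3 : a3 < S) (k4 : a4 < S)
    (hq : S ^ 2 - (a0 + a1 + a2 + a3 + a4) * S +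
      (a0 * a1 + a1 * a2 + a2 * a3 + a3 * a4 + a4 * a0) = 0)
    (hA : a0 + a1 + a2 + a3 + a4 ≤ 3 * S) : a1 + a4 < S := by
  by_contra hc
  rw [not_lt] at hc
  -- `t0 ≤ 0`, hence `t2 < 0` and `t3 < 0`
  obtain ⟨t2, t3⟩ := core h2 h3 k0 k1 k4 hq hc
  -- `t2 < 0` gives `t4 < 0`, `t0 < 0`
  obtain ⟨t4, t0⟩ := core (a0 := a2) (a1 := a3) (a2 := a4) (a3 := a0) (a4 := a1) h4 h0 k2 k3 k1
    (by linarith) (by linarith)
  obtain ⟨-, t1⟩ := core (a0 := a3) (a1 := a4) (a2 := a0) (a3 := a1) (a4 := a2) h0 h1 k3 k4 k2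
    (by linarith) (by linarith)
  -- `b_j > 0`
  have b0 : 0 < a1 + a4 - S := by linarith
  have b1 : 0 < a2 + a0 - S := by linarith
  have b2 : 0 < a3 + a1 - S := by linarith
  have b3 : 0 < a4 + a2 - S := by linarith
  have b4 : 0 < a0 + a3 - S := by linarith
  have id2 : (a0 + a1 + a2 + a3 + a4 - 2 * S) * (a0 + a1 + a2 + a3 + a4 - 3 * S) =
      (a1 + a4 - S) * (a3 + a1 - S) + (a3 + a1 - S) * (a0 + a3 - S) +
      (a0 + a3 - S) * (a2 + a0 - S) + (a2 + a0 - S) * (a4 + a2 - S) +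
      (a4 + a2 - S) * (a1 + a4 - S) := by
    linear_combination hq
  have pos : 0 < (a1 + a4 - S) * (a3 + a1 - S) + (a3 + a1 - S) * (a0 + a3 - S) +
      (a0 + a3 - S) * (a2 + a0 - S) + (a2 + a0 - S) * (a4 + a2 - S) +
      (a4 + a2 - S) * (a1 + a4 - S) := by positivity
  have neg : (a0 + a1 + a2 + a3 + a4 - 2 * S) * (a0 + a1 + a2 + a3 + a4 - 3 * S) ≤ 0 :=
    mul_nonpos_of_nonneg_of_nonpos (by linarith) (by linarith)
  linarith

theorem Max5.long (h : Max5 K a b c d e) : 0 < T3 a c d := by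
  have e0 := h.ear
  have e1 := h.rot.ear
  have e2 := h.rot.rot.ear
  have e3 := h.rot.rot.rot.ear
  have e4 := h.rot.rot.rot.rot.ear
  have k0 := h.tri h.me h.ma h.mb
  have k1 := h.tri h.ma h.mb h.mc
  have k2 := h.tri h.mb h.mc h.md
  have k3 := h.tri h.mc h.md h.me
  have k4 := h.tri h.md h.me h.ma
  have hstar := h.maxi a h.ma d h.md b h.mb e h.me c h.mc
  have id0 : T3 a c d = S5 a b c d e - T3 a b c - T3 d e a := by
    simp only [S5, T3, cr, Prod.fst_sub, Prod.snd_sub]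
    ring
  have id1 : S5 a d b e c = T3 e a b + T3 a b c + T3 b c d + T3 c d e + T3 d e a -
      2 * S5 a b c d e := by
    simp only [S5, T3, cr, Prod.fst_sub, Prod.snd_sub]
    ring
  have id2 : S5 a b c d e ^ 2 - (T3 e a b + T3 a b c + T3 b c d + T3 c d e + T3 d e a) *
      S5 a b c d e + (T3 e a b * T3 a b c + T3 a b c * T3 b c d + T3 b c d * T3 c d e +
      T3 c d e * T3 d e a + T3 d e a * T3 e a b) = 0 := by
    simp only [S5, T3, cr, Prod.fst_sub, Prod.snd_sub]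
    ring
  have := core2 e0 e1 e2 e3 e4 k0 k1 k2 k3 k4 id2 (by linarith)
  linarith

/-- (S1): `K` lies on the inner side of the line through `a` parallel to `e b`. -/
theorem Max5.side (h : Max5 K a b c d e) {w : ℝ × ℝ} (hw : w ∈ K) : T3 e w b ≤ T3 e a b := by
  have := h.maxi w hw b h.mb c h.mc d h.md e h.me
  simp only [S5, T3, cr, Prod.fst_sub, Prod.snd_sub] at this ⊢
  nlinarith

/-- two vertices may be moved at the same time -/
theorem Max5.two (h : Max5 K a b c d e) {w z : ℝ × ℝ} (hw : w ∈ K) (hz : z ∈ K) :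
    S5 w z c d e ≤ S5 a b c d e :=
  h.maxi w hw z hz c h.mc d h.md e h.me

end Max5

end Pool.Agent.Helper95.PH
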