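import Pool.Agent.Helper95.PH.Frame5

/-!
# Normal form of the maximal inscribed pentagon, and the reduction of upper bounds for `H`
-/

set_option autoImplicit false

namespace Pool.Agent.Helper95.PH

open Pool.Agent.Helper37.PH Pool.Agent.Helper61.PH Pool.Agent.Helper27.PHU
  Pool.Agent.Helper8.PH5 Pool.Agent.Helper83.PHU MeasureTheory Set

/-- Normal form: the maximal inscribed pentagon has the vertices `(0,1)`, `(-x,y)`, `(-1,0)`,
`(1,0)`, `(x',y')`, and the triangle `(0,1)`, `(-1,0)`, `(1,0)` is the largest one of its five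
triangles with one side and the opposite vertex. -/
structure Norm5 (K : Set (ℝ × ℝ)) (x y x' y' : ℝ) : Prop where
  body : IsBody K
  m0 : ((0 : ℝ), (1 : ℝ)) ∈ K
  m1 : (-x, y) ∈ K
  m2 : ((-1 : ℝ), (0 : ℝ)) ∈ K
  m3 : ((1 : ℝ), (0 : ℝ)) ∈ K
  m4 : (x', y') ∈ K
  maxi : ∀ p0 ∈ K, ∀ p1 ∈ K, ∀ p2 ∈ K, ∀ p3 ∈ K, ∀ p4 ∈ K,
    S5 p0 p1 p2 p3 p4 ≤ x + y + x' + y'
  quad : ∀ p0 ∈ K, ∀ p1 ∈ K, ∀ p2 ∈ K, ∀ p3 ∈ K, S4 p0 p1 p2 p3 < x + y + x' + y'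
  ear0 : 0 < x + x' - x * y' - x' * y
  ear1 : 1 < x + y
  ear2 : 0 < y
  ear3 : 0 < y'
  ear4 : 1 < x' + y'
  lng1 : 0 < (1 + x) * y' + (x' - 1) * y
  lng2 : y' < 1 + x'
  lng3 : y < 1 + x
  lng4 : 0 < (1 + x') * y + (x - 1) * y'
  top1 : (1 + x) * y' + (x' - 1) * y ≤ 2
  top2 : x' ≤ 1 + y'
  top3 : x ≤ 1 + y
  top4 : (1 + x') * y + (x - 1) * y' ≤ 2

theorem S5_T3 (a b c d e : ℝ × ℝ) : S5 a b c d e = T3 a b c + T3 a c d + T3 a d e := by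
  simp only [S5, T3, cr, Prod.fst_sub, Prod.snd_sub]
  ring

theorem S4_T3 (a b c d : ℝ × ℝ) : S4 a b c d = T3 a b c + T3 a c d := by
  simp only [S4, T3, cr, Prod.fst_sub, Prod.snd_sub]
  ring

theorem exists_norm5 {K : Set (ℝ × ℝ)} (hK : IsBody K) {a b c d e : ℝ × ℝ}
    (h : Max5 K a b c d e) (t1 : T3 b d e ≤ T3 a c d) (t2 : T3 c e a ≤ T3 a c d)
    (t3 : T3 d a b ≤ T3 a c d) (t4 : T3 e b c ≤ T3 a c d) :
    ∃ (L : (ℝ × ℝ) ≃ₗ[ℝ] (ℝ × ℝ)) (m : ℝ × ℝ) (x y x' y' : ℝ),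
      Norm5 (affE L m '' K) x y x' y' := by
  have hpos : 0 < T3 c d a := by
    have h1 := h.long
    have h2 : T3 c d a = T3 a c d := by
      simp only [T3, cr, Prod.fst_sub, Prod.snd_sub]
      ring
    rw [h2]
    exact h1
  obtain ⟨L, m, hA⟩ := exists_aff (a := c) (b := d) (c := a) (ne_of_gt hpos)
  set D : ℝ := cr (d - c) (a - c) with hD
  have hD0 : 0 < D := hpos
  have hD' : D = (d.1 - c.1) * (a.2 - c.2) - (d.2 - c.2) * (a.1 - c.1) := by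
    rw [hD]
    simp only [cr, Prod.fst_sub, Prod.snd_sub]
  have hT : ∀ p q r : ℝ × ℝ, T3 (affE L m p) (affE L m q) (affE L m r) = 2 / D * T3 p q r := by
    intro p q r
    rw [hA, hA, hA]
    simp only [T3, cr, Prod.fst_sub, Prod.snd_sub]
    field_simp
    rw [hD']
    ring
  have hS5 : ∀ p0 p1 p2 p3 p4 : ℝ × ℝ, S5 (affE L m p0) (affE L m p1) (affE L m p2)
      (affE L m p3) (affE L m p4) = 2 / D * S5 p0 p1 p2 p3 p4 := by
    intro p0 p1 p2 p3 p4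
    rw [S5_T3, S5_T3, hT, hT, hT]
    ring
  have hS4 : ∀ p0 p1 p2 p3 : ℝ × ℝ, S4 (affE L m p0) (affE L m p1) (affE L m p2)
      (affE L m p3) = 2 / D * S4 p0 p1 p2 p3 := by
    intro p0 p1 p2 p3
    rw [S4_T3, S4_T3, hT, hT]
    ring
  have hAc : affE L m c = (-1, 0) := by
    rw [hA, sub_self]
    simp [cr]
  have hAd : affE L m d = (1, 0) := by
    rw [hA]
    have e2 : cr (d - c) (d - c) = 0 := by unfold cr; ring
    rw [e2, ← hD]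
    ext
    · show -1 + (2 * D + 0) / D = 1
      field_simp
      ring
    · simp
  have hAa : affE L m a = (0, 1) := by
    rw [hA]
    have e1 : cr (a - c) (a - c) = 0 := by unfold cr; ring
    rw [e1, ← hD]
    ext
    · show -1 + (2 * 0 + D) / D = 0
      field_simp
      ring
    · show D / D = 1
      exact div_self hD0.ne'
  obtain ⟨x, y, hAb⟩ : ∃ x y : ℝ, affE L m b = (-x, y) :=
    ⟨-(affE L m b).1, (affE L m b).2, by simp⟩
  obtain ⟨x', y', hAe⟩ : ∃ x y : ℝ, affE L m e = (x, y) := ⟨_, _, rfl⟩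
  have hval : S5 (affE L m a) (affE L m b) (affE L m c) (affE L m d) (affE L m e) =
      x + y + x' + y' := by
    rw [hAa, hAb, hAc, hAd, hAe]
    simp only [S5, cr]
    ring
  have hval' : 2 / D * S5 a b c d e = x + y + x' + y' := by
    rw [← hS5, hval]
  have h2D : 0 < 2 / D := by positivity
  have E : ∀ {p q r : ℝ × ℝ}, 0 < T3 p q r →
      0 < T3 (affE L m p) (affE L m q) (affE L m r) := by
    intro p q r hh
    rw [hT]
    exact mul_pos h2D hh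
  have F : ∀ {p q r : ℝ × ℝ}, T3 p q r ≤ T3 a c d →
      T3 (affE L m p) (affE L m q) (affE L m r) ≤ 2 := by
    intro p q r hh
    rw [hT]
    have h3 : T3 a c d = D := by
      rw [hD]
      simp only [T3, cr, Prod.fst_sub, Prod.snd_sub]
      ring
    rw [h3] at hh
    have := mul_le_mul_of_nonneg_left hh h2D.le
    rwa [div_mul_cancel₀ _ hD0.ne'] at this
  have e0 := E h.ear
  have e1 := E h.rot.ear
  have e2 := E h.rot.rot.ear
  have e3 := E h.rot.rot.rot.ear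
  have e4 := E h.rot.rot.rot.rot.ear
  have l1 := E h.rot.long
  have l2 := E h.rot.rot.long
  have l3 := E h.rot.rot.rot.long
  have l4 := E h.rot.rot.rot.rot.long
  have f1 := F t1
  have f2 := F t2
  have f3 := F t3
  have f4 := F t4
  rw [hAe, hAa, hAb] at e0
  rw [hAa, hAb, hAc] at e1
  rw [hAb, hAc, hAd] at e2
  rw [hAc, hAd, hAe] at e3
  rw [hAd, hAe, hAa] at e4
  rw [hAb, hAd, hAe] at l1 f1
  rw [hAc, hAe, hAa] at l2 f2
  rw [hAd, hAa, hAb] at l3 f3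
  rw [hAe, hAb, hAc] at l4 f4
  simp only [T3, cr, Prod.fst_sub, Prod.snd_sub] at e0 e1 e2 e3 e4 l1 l2 l3 l4 f1 f2 f3 f4
  refine ⟨L, m, x, y, x', y', ?_⟩
  exact {
    body := body_image hK _
    m0 := ⟨a, h.ma, hAa⟩
    m1 := ⟨b, h.mb, hAb⟩
    m2 := ⟨c, h.mc, hAc⟩
    m3 := ⟨d, h.md, hAd⟩
    m4 := ⟨e, h.me, hAe⟩
    maxi := by
      rintro _ ⟨p0, h0, rfl⟩ _ ⟨p1, h1, rfl⟩ _ ⟨p2, h2, rfl⟩ _ ⟨p3, h3, rfl⟩ _ ⟨p4, h4, rfl⟩
      rw [hS5, ← hval']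
      exact mul_le_mul_of_nonneg_left (h.maxi p0 h0 p1 h1 p2 h2 p3 h3 p4 h4) h2D.le
    quad := by
      rintro _ ⟨p0, h0, rfl⟩ _ ⟨p1, h1, rfl⟩ _ ⟨p2, h2, rfl⟩ _ ⟨p3, h3, rfl⟩
      rw [hS4, ← hval']
      exact mul_lt_mul_of_pos_left (h.quad p0 h0 p1 h1 p2 h2 p3 h3) h2D
    ear0 := by linarith
    ear1 := by linarith
    ear2 := by linarith
    ear3 := by linarith
    ear4 := by linarith
    lng1 := by linarith
    lng2 := by linarith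
    lng3 := by linarith
    lng4 := by linarith
    top1 := by linarith
    top2 := by linarith
    top3 := by linarith
    top4 := by linarith }

theorem T3_rot (a b c : ℝ × ℝ) : T3 b c a = T3 a b c := by
  simp only [T3, cr, Prod.fst_sub, Prod.snd_sub]
  ring

/-- Every body is a hull of four points or has a normal form. -/
theorem norm5_dichotomy {K : Set (ℝ × ℝ)} (hK : IsBody K) :
    (∃ a b c d : ℝ × ℝ, K = convexHull ℝ {a, b, c, d}) ∨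
      ∃ (L : (ℝ × ℝ) ≃ₗ[ℝ] (ℝ × ℝ)) (m : ℝ × ℝ) (x y x' y' : ℝ),
        Norm5 (affE L m '' K) x y x' y' := by
  rcases dichotomy hK with h | ⟨a, b, c, d, e, h⟩
  · exact Or.inl h
  · right
    -- the largest of the five triangles
    have key : ∀ t0 t1 t2 t3 t4 : ℝ,
        (t1 ≤ t0 ∧ t2 ≤ t0 ∧ t3 ≤ t0 ∧ t4 ≤ t0) ∨ (t2 ≤ t1 ∧ t3 ≤ t1 ∧ t4 ≤ t1 ∧ t0 ≤ t1) ∨
        (t3 ≤ t2 ∧ t4 ≤ t2 ∧ t0 ≤ t2 ∧ t1 ≤ t2) ∨ (t4 ≤ t3 ∧ t0 ≤ t3 ∧ t1 ≤ t3 ∧ t2 ≤ t3) ∨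
        (t0 ≤ t4 ∧ t1 ≤ t4 ∧ t2 ≤ t4 ∧ t3 ≤ t4) := by
      intro t0 t1 t2 t3 t4
      obtain ⟨i, hi⟩ := Finite.exists_max (fun i : Fin 5 => (![t0, t1, t2, t3, t4] : Fin 5 → ℝ) i)
      have i0 := hi 0
      have i1 := hi 1
      have i2 := hi 2
      have i3 := hi 3
      have i4 := hi 4
      fin_cases i
      · exact Or.inl ⟨i1, i2, i3, i4⟩
      · exact Or.inr (Or.inl ⟨i2, i3, i4, i0⟩)
      · exact Or.inr (Or.inr (Or.inl ⟨i3, i4, i0, i1⟩))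
      · exact Or.inr (Or.inr (Or.inr (Or.inl ⟨i4, i0, i1, i2⟩)))
      · exact Or.inr (Or.inr (Or.inr (Or.inr ⟨i0, i1, i2, i3⟩)))
    rcases key (T3 a c d) (T3 b d e) (T3 c e a) (T3 d a b) (T3 e b c) with
      ⟨h1, h2, h3, h4⟩ | ⟨h1, h2, h3, h4⟩ | ⟨h1, h2, h3, h4⟩ | ⟨h1, h2, h3, h4⟩ |
      ⟨h1, h2, h3, h4⟩
    · exact exists_norm5 hK h h1 h2 h3 h4
    · exact exists_norm5 hK h.rot h1 h2 h3 h4
    · exact exists_norm5 hK h.rot.rot h1 h2 h3 h4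
    · exact exists_norm5 hK h.rot.rot.rot h1 h2 h3 h4
    · exact exists_norm5 hK h.rot.rot.rot.rot h1 h2 h3 h4

end Pool.Agent.Helper95.PH
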