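import Pool.Agent.Helper95.PH.Norm5

/-!
# Reduction of an upper bound for `H` to bodies with a normalised maximal pentagon
-/

set_option autoImplicit false

namespace Pool.Agent.Helper95.PH

open Pool.Agent.Helper37.PH Pool.Agent.Helper61.PH Pool.Agent.Helper27.PHU
  Pool.Agent.Helper8.PH5 Pool.Agent.Helper83.PHU MeasureTheory Set

/-- reflection of the normal form -/
theorem Norm5.refl {K : Set (ℝ × ℝ)} {x y x' y' : ℝ} (h : Norm5 K x y x' y') :
    Norm5 (mir K) x' y' x y where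
  body := body_mir h.body
  m0 := by
    have := mem_mir h.m0
    rwa [neg_zero] at this
  m1 := mem_mir h.m4
  m2 := mem_mir h.m3
  m3 := by
    have := mem_mir h.m2
    rwa [neg_neg] at this
  m4 := by
    have := mem_mir h.m1
    rwa [neg_neg] at this
  maxi := by
    rintro _ ⟨p0, h0, rfl⟩ _ ⟨p1, h1, rfl⟩ _ ⟨p2, h2, rfl⟩ _ ⟨p3, h3, rfl⟩ _ ⟨p4, h4, rfl⟩
    have := h.maxi p0 h0 p4 h4 p3 h3 p2 h2 p1 h1
    simp only [S5, cr] at this ⊢
    linarith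
  quad := by
    rintro _ ⟨p0, h0, rfl⟩ _ ⟨p1, h1, rfl⟩ _ ⟨p2, h2, rfl⟩ _ ⟨p3, h3, rfl⟩
    have := h.quad p0 h0 p3 h3 p2 h2 p1 h1
    simp only [S4, cr] at this ⊢
    linarith
  ear0 := by linarith [h.ear0]
  ear1 := h.ear4
  ear2 := h.ear3
  ear3 := h.ear2
  ear4 := h.ear1
  lng1 := by linarith [h.lng4]
  lng2 := h.lng3
  lng3 := h.lng2
  lng4 := by linarith [h.lng1]
  top1 := by linarith [h.top4]
  top2 := h.top3
  top3 := h.top2
  top4 := by linarith [h.top1]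

section S1

variable {K : Set (ℝ × ℝ)} {x y x' y' : ℝ}

/-- `K` below the line through `v0` parallel to `v4 v1` -/
theorem Norm5.s0 (h : Norm5 K x y x' y') {z : ℝ × ℝ} (hz : z ∈ K) :
    (x + x') * z.2 + (y - y') * z.1 ≤ x + x' := by
  have := h.maxi z hz _ h.m1 _ h.m2 _ h.m3 _ h.m4
  simp only [S5, cr] at this
  linarith

/-- the line through `v1` parallel to `v0 v2` -/
theorem Norm5.s1 (h : Norm5 K x y x' y') {z : ℝ × ℝ} (hz : z ∈ K) : z.2 - z.1 ≤ x + y := by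
  have := h.maxi _ h.m0 z hz _ h.m2 _ h.m3 _ h.m4
  simp only [S5, cr] at this
  linarith

/-- the line through `v2` parallel to `v1 v3` -/
theorem Norm5.s2 (h : Norm5 K x y x' y') {z : ℝ × ℝ} (hz : z ∈ K) :
    -(y * z.1) - (1 + x) * z.2 ≤ y := by
  have := h.maxi _ h.m0 _ h.m1 z hz _ h.m3 _ h.m4
  simp only [S5, cr] at this
  linarith

/-- the line through `v3` parallel to `v2 v4` -/
theorem Norm5.s3 (h : Norm5 K x y x' y') {z : ℝ × ℝ} (hz : z ∈ K) :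
    y' * z.1 - (1 + x') * z.2 ≤ y' := by
  have := h.maxi _ h.m0 _ h.m1 _ h.m2 z hz _ h.m4
  simp only [S5, cr] at this
  linarith

/-- the line through `v4` parallel to `v3 v0` -/
theorem Norm5.s4 (h : Norm5 K x y x' y') {z : ℝ × ℝ} (hz : z ∈ K) : z.1 + z.2 ≤ x' + y' := by
  have := h.maxi _ h.m0 _ h.m1 _ h.m2 _ h.m3 z hz
  simp only [S5, cr] at this
  linarith

end S1

/-- the extremal value -/
theorem k_facts : ∃ k : ℝ, (5 + 3 * Real.sqrt 5) / 10 = 1 + k ∧ 5 * k ^ 2 + 5 * k = 1 ∧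
    1 / 6 < k ∧ k < 1 / 2 := by
  have h5 : Real.sqrt 5 ^ 2 = 5 := Real.sq_sqrt (by norm_num)
  have h0 : 0 ≤ Real.sqrt 5 := Real.sqrt_nonneg 5
  have h1 : 2.235 < Real.sqrt 5 := by
    rw [show (2.235 : ℝ) = Real.sqrt (2.235 ^ 2) by
      rw [Real.sqrt_sq (by norm_num)]]
    exact Real.sqrt_lt_sqrt (by norm_num) (by norm_num)
  have h2 : Real.sqrt 5 < 2.24 := by
    rw [show (2.24 : ℝ) = Real.sqrt (2.24 ^ 2) by
      rw [Real.sqrt_sq (by norm_num)]]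
    exact Real.sqrt_lt_sqrt (by norm_num) (by norm_num)
  refine ⟨(5 + 3 * Real.sqrt 5) / 10 - 1, by ring, ?_, ?_, ?_⟩
  · have e : 5 * ((5 + 3 * Real.sqrt 5) / 10 - 1) ^ 2 + 5 * ((5 + 3 * Real.sqrt 5) / 10 - 1) =
        (9 * Real.sqrt 5 ^ 2 - 25) / 20 := by ring
    rw [e, h5]
    norm_num
  · linarith
  · linarith

/-- **Reduction.** To show `H ≤ C`, `C ≥ (5 + 3 √5) / 10`, it is enough to treat bodies in the
normal form with `y ≤ y'`. -/
theorem H_le_of_norm5 {C : ℝ} (hC : (5 + 3 * Real.sqrt 5) / 10 ≤ C)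
    (h : ∀ (K : Set (ℝ × ℝ)) (x y x' y' : ℝ), Norm5 K x y x' y' → y ≤ y' →
      ∃ V : ℝ, 0 ≤ V ∧ ENNReal.ofReal V ≤ volume K ∧ Cov K (C * V)) :
    H ≤ ENNReal.ofReal C := by
  obtain ⟨k, hk, hk1, hk2, hk3⟩ := k_facts
  have hC0 : 0 ≤ C := by
    rw [hk] at hC
    linarith
  -- without the assumption `y ≤ y'`
  have h' : ∀ (K : Set (ℝ × ℝ)) (x y x' y' : ℝ), Norm5 K x y x' y' →
      ∃ V : ℝ, 0 ≤ V ∧ ENNReal.ofReal V ≤ volume K ∧ Cov K (C * V) := by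
    intro K x y x' y' hN
    rcases le_total y y' with hy | hy
    · exact h K x y x' y' hN hy
    · obtain ⟨V, V0, hV, hcov⟩ := h _ _ _ _ _ hN.refl hy
      rw [vol_mir] at hV
      exact ⟨V, V0, hV, Cov_mir hcov⟩
  unfold H
  refine iSup₂_le fun K hK => ?_
  obtain ⟨hbody, hvol⟩ := hK
  rcases norm5_dichotomy hbody with ⟨a, b, c, d, hKe⟩ | ⟨L, m, x, y, x', y', hN⟩
  · classical
    have hs : ((({a, b, c, d} : Finset (ℝ × ℝ)) : Set (ℝ × ℝ))) = {a, b, c, d} := by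
      simp
    have := upper (K := K) (k := k) (s := {a, b, c, d}) hbody hvol
      (Finset.card_le_four.trans (by norm_num)) (by rw [hs]; exact hKe) hk1 hk2 hk3
    refine this.trans (ENNReal.ofReal_le_ofReal ?_)
    rw [← hk]
    exact hC
  · obtain ⟨V, V0, hV, hcov⟩ := h' _ _ _ _ _ hN
    rw [volume_affE, hvol, mul_one] at hV
    have hV2 : V ≤ |LinearMap.det (L : (ℝ × ℝ) →ₗ[ℝ] (ℝ × ℝ))| :=
      (ENNReal.ofReal_le_ofReal_iff (abs_nonneg _)).1 hV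
    apply hstar_le
    apply Cov_affE L m
    refine cov_mono hcov subset_rfl ?_
    rw [mul_comm]
    exact mul_le_mul_of_nonneg_right hV2 hC0

end Pool.Agent.Helper95.PH
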